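import Mathlib

/-!
# Approximation numbers versus Hilbert numbers (problem MP_69de12_an, Q1)

For every bounded operator `S : X → Y` between normed spaces (real or complex) and every `n ≥ 0`
we prove `a_n(S) ≤ (n + 1) * (h_0(S) ⋯ h_n(S)) ^ (1 / (n + 1))`, so Q1 holds with `C = 1`.

Idea: let `Δ_m` be the supremum of `|det (b_i (S x_j))|` over `x_1, …, x_m` in the unit ball of `X`
and `b_1, …, b_m` in the unit ball of `Y'`.

* Interpolating `S` at a configuration with nonzero determinant gives an operator `L` of rank at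
  most `m`, and `b ((S - L) x)` is a Schur complement, i.e. a quotient of an `(m+1)`-determinant by
  the `m`-determinant. Hence `a_m(S) * Δ_m ≤ Δ_{m+1}` and so `∏_{k<m} a_k(S) ≤ Δ_m`.
* Every such `m`-determinant is `m ^ m` times the determinant of a compression of `B S A` with
  contractions `A : ℓ₂ → X`, `B : Y → ℓ₂`, hence is at most `m ^ m * ∏_{k<m} h_k(S)`.
-/

open scoped BigOperators InnerProductSpace

namespace Pool.Agent.Results.MP_69de12_an.GeomMean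

section Defs

variable {𝕜 : Type*} [RCLike 𝕜]
  {X : Type*} [NormedAddCommGroup X] [NormedSpace 𝕜 X]
  {Y : Type*} [NormedAddCommGroup Y] [NormedSpace 𝕜 Y]

/-- The worst-case error `sup_{‖x‖ ≤ 1} ‖S x - y₀ - ∑_j u_j(x) y_j‖` of approximating `S` on the
closed unit ball of `X` by `x ↦ y₀ + ∑_{j=1}^n u_j(x) y_j`. -/
noncomputable def worstError {n : ℕ} (S : X →L[𝕜] Y) (u : Fin n → (X →L[𝕜] 𝕜)) (y₀ : Y)
    (y : Fin n → Y) : ℝ :=
  ⨆ x : Metric.closedBall (0 : X) 1, ‖S x - y₀ - ∑ j, u j x • y j‖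

/-- The approximation number `a_n(S)`: the infimum, over all `u_1, …, u_n ∈ X'` and
`y_0, y_1, …, y_n ∈ Y`, of `sup_{‖x‖ ≤ 1} ‖S x - y_0 - ∑_j u_j(x) y_j‖`. -/
noncomputable def approxNumber (n : ℕ) (S : X →L[𝕜] Y) : ℝ :=
  ⨅ p : (Fin n → (X →L[𝕜] 𝕜)) × Y × (Fin n → Y), worstError S p.1 p.2.1 p.2.2

/-- For an auxiliary space `H`, the supremum of `a_n(B S A)` over all bounded linear operators
`A : H → X` and `B : Y → H` with `‖A‖ ≤ 1` and `‖B‖ ≤ 1`. -/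
noncomputable def factorNumber (H : Type*) [NormedAddCommGroup H] [NormedSpace 𝕜 H]
    (n : ℕ) (S : X →L[𝕜] Y) : ℝ :=
  ⨆ p : {p : (H →L[𝕜] X) × (Y →L[𝕜] H) // ‖p.1‖ ≤ 1 ∧ ‖p.2‖ ≤ 1},
    approxNumber n (p.1.2.comp (S.comp p.1.1))

/-- The Hilbert number `h_n(S)`: the supremum of `a_n(B S A)` over all bounded linear operators
`A : ℓ₂ → X` and `B : Y → ℓ₂` of norm at most one, where `ℓ₂ = ℓ₂(ℕ)` over the scalar field. -/
noncomputable def hilbertNumber (n : ℕ) (S : X →L[𝕜] Y) : ℝ :=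
  factorNumber (lp (fun _ : ℕ => 𝕜) 2) n S

/-- `G_n(S) = (∏_{k=0}^n h_k(S))^{1/(n+1)}`. -/
noncomputable def geomMeanHilbert (n : ℕ) (S : X →L[𝕜] Y) : ℝ :=
  (∏ k ∈ Finset.range (n + 1), hilbertNumber k S) ^ ((1 : ℝ) / ((n : ℝ) + 1))

end Defs

section Basic

variable {𝕜 : Type*} [RCLike 𝕜]
  {X : Type*} [NormedAddCommGroup X] [NormedSpace 𝕜 X]
  {Y : Type*} [NormedAddCommGroup Y] [NormedSpace 𝕜 Y]

lemma bddAbove_err (n : ℕ) (S : X →L[𝕜] Y) (p : (Fin n → (X →L[𝕜] 𝕜)) × Y × (Fin n → Y)) :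
    BddAbove (Set.range fun x : Metric.closedBall (0 : X) 1 =>
      ‖S x - p.2.1 - ∑ j, p.1 j x • p.2.2 j‖) := by
  refine ⟨‖S‖ + ‖p.2.1‖ + ∑ j, ‖p.1 j‖ * ‖p.2.2 j‖, ?_⟩
  rintro _ ⟨⟨x, hx⟩, rfl⟩
  have hx1 : ‖x‖ ≤ 1 := by simpa using hx
  have h1 : ‖S x‖ ≤ ‖S‖ := (S.le_opNorm x).trans (by nlinarith [norm_nonneg S])
  have h2 : ‖∑ j, p.1 j x • p.2.2 j‖ ≤ ∑ j, ‖p.1 j‖ * ‖p.2.2 j‖ := by
    refine (norm_sum_le _ _).trans (Finset.sum_le_sum fun j _ => ?_)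
    rw [norm_smul]
    have : ‖p.1 j x‖ ≤ ‖p.1 j‖ := ((p.1 j).le_opNorm x).trans (by nlinarith [norm_nonneg (p.1 j)])
    gcongr
  calc ‖S x - p.2.1 - ∑ j, p.1 j x • p.2.2 j‖
      ≤ ‖S x - p.2.1‖ + ‖∑ j, p.1 j x • p.2.2 j‖ := norm_sub_le _ _
    _ ≤ ‖S x‖ + ‖p.2.1‖ + ‖∑ j, p.1 j x • p.2.2 j‖ := by gcongr; exact norm_sub_le _ _
    _ ≤ _ := by gcongr

lemma bddBelow_inf (n : ℕ) (S : X →L[𝕜] Y) :
    BddBelow (Set.range fun p : (Fin n → (X →L[𝕜] 𝕜)) × Y × (Fin n → Y) =>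
      worstError S p.1 p.2.1 p.2.2) := by
  refine ⟨0, ?_⟩
  rintro _ ⟨p, rfl⟩
  exact Real.iSup_nonneg fun x => norm_nonneg _

lemma approxNumber_nonneg (n : ℕ) (S : X →L[𝕜] Y) : 0 ≤ approxNumber n S :=
  Real.iInf_nonneg fun _ => Real.iSup_nonneg fun _ => norm_nonneg _

lemma approxNumber_le_of (n : ℕ) (S : X →L[𝕜] Y) (u : Fin n → (X →L[𝕜] 𝕜)) (y₀ : Y)
    (y : Fin n → Y) (r : ℝ) (h : ∀ x : X, ‖x‖ ≤ 1 → ‖S x - y₀ - ∑ j, u j x • y j‖ ≤ r) :
    approxNumber n S ≤ r := by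
  have : Nonempty (Metric.closedBall (0 : X) 1) := ⟨⟨0, by simp⟩⟩
  refine (ciInf_le (bddBelow_inf n S) (u, y₀, y)).trans ?_
  refine ciSup_le fun x => ?_
  exact h x (mem_closedBall_zero_iff.mp x.2)

lemma exists_of_approxNumber_lt (n : ℕ) (S : X →L[𝕜] Y) (r : ℝ) (hr : approxNumber n S < r) :
    ∃ (u : Fin n → (X →L[𝕜] 𝕜)) (y : Fin n → Y),
      ∀ x : X, ‖x‖ ≤ 1 → ‖S x - ∑ j, u j x • y j‖ ≤ r := by
  obtain ⟨⟨u, y₀, y⟩, hp⟩ := exists_lt_of_ciInf_lt hr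
  refine ⟨u, y, fun x hx => ?_⟩
  have key : ∀ z : X, ‖z‖ ≤ 1 → ‖S z - y₀ - ∑ j, u j z • y j‖ ≤ r := by
    intro z hz
    refine le_trans ?_ hp.le
    exact le_ciSup (bddAbove_err n S (u, y₀, y)) (⟨z, by simpa using hz⟩ : Metric.closedBall (0 : X) 1)
  have h1 := key x hx
  have h2 := key (-x) (by simpa using hx)
  have h3 : S (-x) - y₀ - ∑ j, u j (-x) • y j = -(S x - ∑ j, u j x • y j) - y₀ := by
    simp only [map_neg, neg_smul, Finset.sum_neg_distrib]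
    abel
  have h4 : S x - y₀ - ∑ j, u j x • y j = (S x - ∑ j, u j x • y j) - y₀ := by abel
  rw [h3] at h2
  rw [h4] at h1
  set w := S x - ∑ j, u j x • y j
  have h5 : (2 : ℝ) * ‖w‖ ≤ ‖w - y₀‖ + ‖-w - y₀‖ := by
    have : (w - y₀) - (-w - y₀) = (2 : 𝕜) • w := by
      rw [two_smul]; abel
    calc (2 : ℝ) * ‖w‖ = ‖(2 : 𝕜) • w‖ := by rw [norm_smul]; simp
      _ = ‖(w - y₀) - (-w - y₀)‖ := by rw [this]
      _ ≤ _ := norm_sub_le _ _
  linarith

lemma approxNumber_succ_le (n : ℕ) (S : X →L[𝕜] Y) :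
    approxNumber (n + 1) S ≤ approxNumber n S := by
  refine le_of_forall_gt fun r hr => ?_
  obtain ⟨r', hr', hr''⟩ := exists_between hr
  refine lt_of_le_of_lt ?_ hr''
  obtain ⟨u, y, h⟩ := exists_of_approxNumber_lt n S r' hr'
  refine approxNumber_le_of (n + 1) S (Fin.snoc u 0) 0 (Fin.snoc y 0) r' fun x hx => ?_
  simpa [Fin.sum_univ_castSucc] using h x hx

lemma approxNumber_antitone (S : X →L[𝕜] Y) : Antitone fun n => approxNumber n S :=
  antitone_nat_of_succ_le fun n => approxNumber_succ_le n S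

lemma approxNumber_le_norm (n : ℕ) (S : X →L[𝕜] Y) : approxNumber n S ≤ ‖S‖ := by
  refine approxNumber_le_of n S 0 0 0 _ fun x hx => ?_
  simpa using (S.le_opNorm x).trans (by nlinarith [norm_nonneg S])

lemma bddAbove_hilbert (n : ℕ) (S : X →L[𝕜] Y) :
    BddAbove (Set.range fun p : {p : (lp (fun _ : ℕ => 𝕜) 2 →L[𝕜] X) ×
        (Y →L[𝕜] lp (fun _ : ℕ => 𝕜) 2) // ‖p.1‖ ≤ 1 ∧ ‖p.2‖ ≤ 1} =>
      approxNumber n (p.1.2.comp (S.comp p.1.1))) := by
  refine ⟨‖S‖, ?_⟩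
  rintro _ ⟨⟨⟨A, B⟩, hA, hB⟩, rfl⟩
  simp only at hA hB ⊢
  refine (approxNumber_le_norm _ _).trans ?_
  calc ‖B.comp (S.comp A)‖ ≤ ‖B‖ * ‖S.comp A‖ := ContinuousLinearMap.opNorm_comp_le _ _
    _ ≤ ‖B‖ * (‖S‖ * ‖A‖) := by gcongr; exact ContinuousLinearMap.opNorm_comp_le _ _
    _ ≤ 1 * (‖S‖ * 1) := by gcongr
    _ = ‖S‖ := by ring

lemma approxNumber_comp_le_hilbert (n : ℕ) (S : X →L[𝕜] Y)
    (A : lp (fun _ : ℕ => 𝕜) 2 →L[𝕜] X) (B : Y →L[𝕜] lp (fun _ : ℕ => 𝕜) 2)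
    (hA : ‖A‖ ≤ 1) (hB : ‖B‖ ≤ 1) :
    approxNumber n (B.comp (S.comp A)) ≤ hilbertNumber n S :=
  le_ciSup (bddAbove_hilbert n S) (⟨(A, B), hA, hB⟩ :
    {p : (lp (fun _ : ℕ => 𝕜) 2 →L[𝕜] X) × (Y →L[𝕜] lp (fun _ : ℕ => 𝕜) 2) //
      ‖p.1‖ ≤ 1 ∧ ‖p.2‖ ≤ 1})

lemma hilbertNumber_nonneg (n : ℕ) (S : X →L[𝕜] Y) : 0 ≤ hilbertNumber n S :=
  Real.iSup_nonneg fun _ => approxNumber_nonneg _ _

end Basic

section Singular

variable {𝕜 : Type*} [RCLike 𝕜]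
  {H : Type*} [NormedAddCommGroup H] [NormedSpace 𝕜 H]
  {E : Type*} [NormedAddCommGroup E] [InnerProductSpace 𝕜 E] [FiniteDimensional 𝕜 E]

/-- The `k`-th singular value of a contraction-compression of `T` is at most `a_k(T)`. -/
lemma singularValues_le_approxNumber (T : H →L[𝕜] H) (J : E →ₗ[𝕜] H) (P : H →ₗ[𝕜] E)
    (hJ : ∀ v, ‖J v‖ ≤ ‖v‖) (hP : ∀ v, ‖P v‖ ≤ ‖v‖) (f : E →ₗ[𝕜] E)
    (hf : ∀ v, f v = P (T (J v))) (k : ℕ) (hk : k < Module.finrank 𝕜 E) :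
    f.singularValues k ≤ approxNumber k T := by
  refine le_of_forall_gt fun r hr => ?_
  obtain ⟨r', hr', hr''⟩ := exists_between hr
  refine lt_of_le_of_lt ?_ hr''
  obtain ⟨u, y, h⟩ := exists_of_approxNumber_lt k T r' hr'
  have hr0 : 0 ≤ r' := (approxNumber_nonneg k T).trans hr'.le
  set n := Module.finrank 𝕜 E with hn
  have hsym := f.isSymmetric_adjoint_comp_self
  set b := hsym.eigenvectorBasis rfl with hb
  have hk' : k + 1 ≤ n := hk
  -- a nontrivial combination of the first `k+1` right singular vectors killed by all `u_j ∘ J`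
  let Φ : (Fin (k + 1) → 𝕜) →ₗ[𝕜] (Fin k → 𝕜) :=
    LinearMap.pi fun j => ((u j : H →ₗ[𝕜] 𝕜) ∘ₗ J) ∘ₗ
      (Fintype.linearCombination 𝕜 fun i : Fin (k + 1) => b (Fin.castLE hk' i))
  have hker : LinearMap.ker Φ ≠ ⊥ := by
    apply LinearMap.ker_ne_bot_of_finrank_lt
    simp
  obtain ⟨c, hc, hc0⟩ := Submodule.exists_mem_ne_zero_of_ne_bot hker
  set v : E := ∑ i, c i • b (Fin.castLE hk' i) with hv
  have hu : ∀ j, u j (J v) = 0 := by
    intro j
    have := congrFun (LinearMap.mem_ker.mp hc) j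
    simpa [Φ, Fintype.linearCombination_apply, hv] using this
  have hon : Orthonormal 𝕜 (fun i : Fin (k + 1) => b (Fin.castLE hk' i)) :=
    b.orthonormal.comp _ (Fin.castLE_injective _)
  have hvn : ‖v‖ ^ 2 = ∑ i, ‖c i‖ ^ 2 := by
    have h1 : inner 𝕜 v v = ∑ i, (starRingEnd 𝕜) (c i) * c i := by
      rw [hv]; exact hon.inner_sum c c Finset.univ
    have h2 : ((‖v‖ ^ 2 : ℝ) : 𝕜) = ((∑ i, ‖c i‖ ^ 2 : ℝ) : 𝕜) := by
      rw [inner_self_eq_norm_sq_to_K] at h1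
      push_cast
      rw [h1]
      refine Finset.sum_congr rfl fun i _ => ?_
      exact RCLike.conj_mul (c i)
    exact_mod_cast h2
  have hvne : v ≠ 0 := by
    intro hv0
    rw [hv0, norm_zero] at hvn
    apply hc0
    have h0 : ∑ i, ‖c i‖ ^ 2 = 0 := by rw [← hvn]; norm_num
    rw [Finset.sum_eq_zero_iff_of_nonneg (fun i _ => by positivity)] at h0
    funext i
    have := h0 i (Finset.mem_univ i)
    simpa using this
  have hvpos : 0 < ‖v‖ := norm_pos_iff.mpr hvne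
  -- upper bound
  have hfv : ‖f v‖ ≤ r' * ‖v‖ := by
    have hx : ‖J (((‖v‖⁻¹ : ℝ) : 𝕜) • v)‖ ≤ 1 := by
      refine (hJ _).trans ?_
      rw [norm_smul]
      simp [hvpos.ne']
    have h1 := h _ hx
    simp only [map_smul, hu, smul_zero, zero_smul, Finset.sum_const_zero, sub_zero,
      norm_smul] at h1
    have h3 : ‖((‖v‖⁻¹ : ℝ) : 𝕜)‖ = ‖v‖⁻¹ := by simp
    rw [h3] at h1
    have h4 : ‖T (J v)‖ ≤ r' * ‖v‖ := by
      rw [inv_mul_le_iff₀ hvpos] at h1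
      linarith
    rw [hf]
    exact (hP _).trans h4
  -- lower bound
  have hTv : (LinearMap.adjoint f ∘ₗ f) v =
      ∑ i, (c i * ((hsym.eigenvalues rfl (Fin.castLE hk' i) : ℝ) : 𝕜)) •
        b (Fin.castLE hk' i) := by
    rw [hv, map_sum]
    refine Finset.sum_congr rfl fun i _ => ?_
    rw [map_smul, hb, hsym.apply_eigenvectorBasis rfl, smul_smul]
  have hlow : ‖f v‖ ^ 2 = ∑ i, hsym.eigenvalues rfl (Fin.castLE hk' i) * ‖c i‖ ^ 2 := by
    have h1 : inner 𝕜 v ((LinearMap.adjoint f ∘ₗ f) v) = inner 𝕜 (f v) (f v) := by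
      rw [LinearMap.comp_apply, LinearMap.adjoint_inner_right]
    rw [hTv] at h1
    have h2 : inner 𝕜 v (∑ i, (c i * ((hsym.eigenvalues rfl (Fin.castLE hk' i) : ℝ) : 𝕜)) •
        b (Fin.castLE hk' i)) =
        ∑ i, (starRingEnd 𝕜) (c i) * (c i * ((hsym.eigenvalues rfl (Fin.castLE hk' i) : ℝ) : 𝕜)) := by
      conv_lhs => rw [hv]
      exact hon.inner_sum c _ Finset.univ
    rw [h2, inner_self_eq_norm_sq_to_K] at h1
    have h3 : ((‖f v‖ ^ 2 : ℝ) : 𝕜) =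
        ((∑ i, hsym.eigenvalues rfl (Fin.castLE hk' i) * ‖c i‖ ^ 2 : ℝ) : 𝕜) := by
      push_cast
      rw [← h1]
      refine Finset.sum_congr rfl fun i _ => ?_
      rw [← mul_assoc, RCLike.conj_mul (c i)]
      ring
    exact_mod_cast h3
  have hlow2 : hsym.eigenvalues rfl ⟨k, hk⟩ * ‖v‖ ^ 2 ≤ ‖f v‖ ^ 2 := by
    rw [hlow, hvn, Finset.mul_sum]
    refine Finset.sum_le_sum fun i _ => ?_
    have : hsym.eigenvalues rfl ⟨k, hk⟩ ≤ hsym.eigenvalues rfl (Fin.castLE hk' i) := by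
      apply hsym.eigenvalues_antitone rfl
      rw [Fin.le_def]
      simp only [Fin.val_castLE]
      omega
    gcongr
  rw [f.singularValues_of_lt rfl hk]
  have h5 : hsym.eigenvalues rfl ⟨k, hk⟩ ≤ r' ^ 2 := by
    have h6 : ‖f v‖ ^ 2 ≤ (r' * ‖v‖) ^ 2 := by gcongr
    have h7 : hsym.eigenvalues rfl ⟨k, hk⟩ * ‖v‖ ^ 2 ≤ r' ^ 2 * ‖v‖ ^ 2 := by
      calc _ ≤ ‖f v‖ ^ 2 := hlow2
        _ ≤ (r' * ‖v‖) ^ 2 := h6
        _ = _ := by ring
    exact le_of_mul_le_mul_right h7 (by positivity)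
  calc √(hsym.eigenvalues rfl ⟨k, hk⟩) ≤ √(r' ^ 2) := Real.sqrt_le_sqrt h5
    _ = r' := Real.sqrt_sq hr0

end Singular

section Det

variable {𝕜 : Type*} [RCLike 𝕜]
  {X : Type*} [NormedAddCommGroup X] [NormedSpace 𝕜 X]
  {Y : Type*} [NormedAddCommGroup Y] [NormedSpace 𝕜 Y]

lemma norm_sum_single_fin {m : ℕ} (c : Fin m → 𝕜) :
    ‖∑ i : Fin m, (lp.single 2 (i : ℕ) (c i) : lp (fun _ : ℕ => 𝕜) 2)‖ ^ 2 = ∑ i, ‖c i‖ ^ 2 := by
  have h := lp.norm_sum_single (p := 2) (E := fun _ : ℕ => 𝕜) (by norm_num)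
    (fun i => if h : i < m then c ⟨i, h⟩ else 0) (Finset.range m)
  rw [Finset.sum_range, Finset.sum_range] at h
  simpa using h

lemma sum_sq_le_norm_sq (m : ℕ) (z : lp (fun _ : ℕ => 𝕜) 2) :
    ∑ i : Fin m, ‖z (i : ℕ)‖ ^ 2 ≤ ‖z‖ ^ 2 := by
  have h := lp.sum_rpow_le_norm_rpow (p := 2) (by norm_num) z (Finset.range m)
  rw [Finset.sum_range] at h
  simpa using h

lemma single_coord_same (i : ℕ) (a : 𝕜) :
    (lp.single 2 i a : lp (fun _ : ℕ => 𝕜) 2) i = a :=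
  lp.single_apply_self (E := fun _ : ℕ => 𝕜) 2 i a

lemma single_coord_ne (i j : ℕ) (a : 𝕜) (h : i ≠ j) :
    (lp.single 2 j a : lp (fun _ : ℕ => 𝕜) 2) i = 0 :=
  lp.single_apply_ne (E := fun _ : ℕ => 𝕜) 2 j a h

/-- Finite determinants of `S` are controlled by the Hilbert numbers. -/
lemma det_le_hilbert (S : X →L[𝕜] Y) (m : ℕ) (x : Fin m → X) (b : Fin m → (Y →L[𝕜] 𝕜))
    (hx : ∀ i, ‖x i‖ ≤ 1) (hb : ∀ i, ‖b i‖ ≤ 1) :
    ‖(Matrix.of fun i j => b i (S (x j))).det‖ ≤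
      (m : ℝ) ^ m * ∏ k ∈ Finset.range m, hilbertNumber k S := by
  rcases Nat.eq_zero_or_pos m with hm | hm
  · subst hm
    simp
  have hm' : (0 : ℝ) < m := by exact_mod_cast hm
  have hs : (0 : ℝ) < √(m : ℝ) := Real.sqrt_pos.mpr hm'
  set κ : 𝕜 := (((√(m : ℝ))⁻¹ : ℝ) : 𝕜) with hκ
  have hκn : ‖κ‖ = (√(m : ℝ))⁻¹ := by
    rw [hκ, RCLike.norm_ofReal, abs_of_nonneg (by positivity)]
  let A : lp (fun _ : ℕ => 𝕜) 2 →L[𝕜] X :=
    κ • ∑ i : Fin m, (lp.evalCLM 𝕜 (fun _ : ℕ => 𝕜) 2 (i : ℕ)).smulRight (x i)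
  let B : Y →L[𝕜] lp (fun _ : ℕ => 𝕜) 2 :=
    κ • ∑ i : Fin m, (b i).smulRight (lp.single 2 (i : ℕ) (1 : 𝕜))
  have hAapp : ∀ z, A z = κ • ∑ i : Fin m, z (i : ℕ) • x i := by
    intro z
    simp [A, lp.evalCLM]
  have hBapp : ∀ y, B y = κ • ∑ i : Fin m, lp.single 2 (i : ℕ) (b i y) := by
    intro y
    have : ∀ i : Fin m, (b i y) • (lp.single 2 (i : ℕ) (1 : 𝕜) : lp (fun _ : ℕ => 𝕜) 2) =
        lp.single 2 (i : ℕ) (b i y) := by
      intro i
      rw [← lp.single_smul]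
      simp
    simp [B, this]
  have hA : ‖A‖ ≤ 1 := by
    refine ContinuousLinearMap.opNorm_le_bound _ zero_le_one fun z => ?_
    rw [hAapp, norm_smul, hκn, one_mul, inv_mul_le_iff₀ hs]
    have h1 : ‖∑ i : Fin m, z (i : ℕ) • x i‖ ≤ ∑ i : Fin m, ‖z (i : ℕ)‖ := by
      refine (norm_sum_le _ _).trans (Finset.sum_le_sum fun i _ => ?_)
      rw [norm_smul]
      exact mul_le_of_le_one_right (norm_nonneg _) (hx i)
    have h2 : (∑ i : Fin m, ‖z (i : ℕ)‖) ^ 2 ≤ (√(m : ℝ) * ‖z‖) ^ 2 := by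
      calc (∑ i : Fin m, ‖z (i : ℕ)‖) ^ 2 ≤ (Finset.univ : Finset (Fin m)).card *
            ∑ i : Fin m, ‖z (i : ℕ)‖ ^ 2 := sq_sum_le_card_mul_sum_sq
        _ = m * ∑ i : Fin m, ‖z (i : ℕ)‖ ^ 2 := by simp
        _ ≤ m * ‖z‖ ^ 2 := by gcongr; exact sum_sq_le_norm_sq m z
        _ = _ := by rw [mul_pow, Real.sq_sqrt hm'.le]
    exact h1.trans (abs_le_of_sq_le_sq' h2 (by positivity)).2
  have hB : ‖B‖ ≤ 1 := by
    refine ContinuousLinearMap.opNorm_le_bound _ zero_le_one fun y => ?_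
    rw [hBapp, norm_smul, hκn, one_mul, inv_mul_le_iff₀ hs]
    have h2 : ‖∑ i : Fin m, (lp.single 2 (i : ℕ) (b i y) : lp (fun _ : ℕ => 𝕜) 2)‖ ^ 2 ≤
        (√(m : ℝ) * ‖y‖) ^ 2 := by
      rw [norm_sum_single_fin]
      calc ∑ i : Fin m, ‖b i y‖ ^ 2 ≤ ∑ i : Fin m, ‖y‖ ^ 2 := by
            refine Finset.sum_le_sum fun i _ => ?_
            have : ‖b i y‖ ≤ ‖y‖ := ((b i).le_opNorm y).trans
              (mul_le_of_le_one_left (norm_nonneg _) (hb i))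
            gcongr
        _ = _ := by
          rw [mul_pow, Real.sq_sqrt hm'.le]
          simp
    exact (abs_le_of_sq_le_sq' h2 (by positivity)).2
  let T : lp (fun _ : ℕ => 𝕜) 2 →L[𝕜] lp (fun _ : ℕ => 𝕜) 2 := B.comp (S.comp A)
  let J : EuclideanSpace 𝕜 (Fin m) →ₗ[𝕜] lp (fun _ : ℕ => 𝕜) 2 :=
    ∑ i : Fin m, (lp.lsingle (𝕜 := 𝕜) (E := fun _ : ℕ => 𝕜) 2 (i : ℕ)) ∘ₗ
      (EuclideanSpace.proj (𝕜 := 𝕜) i : EuclideanSpace 𝕜 (Fin m) →L[𝕜] 𝕜).toLinearMap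
  let P : lp (fun _ : ℕ => 𝕜) 2 →ₗ[𝕜] EuclideanSpace 𝕜 (Fin m) :=
    { toFun := fun z => WithLp.toLp 2 fun i : Fin m => z (i : ℕ)
      map_add' := fun z w => by ext i; simp
      map_smul' := fun c z => by ext i; simp }
  have hJapp : ∀ c, J c = ∑ i : Fin m, lp.single 2 (i : ℕ) (c i) := by
    intro c
    simp [J, lp.lsingle]
  have hJ : ∀ v, ‖J v‖ ≤ ‖v‖ := by
    intro v
    rw [hJapp]
    have h2 : ‖∑ i : Fin m, (lp.single 2 (i : ℕ) (v i) : lp (fun _ : ℕ => 𝕜) 2)‖ ^ 2 ≤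
        ‖v‖ ^ 2 := by
      rw [norm_sum_single_fin, EuclideanSpace.norm_sq_eq]
    exact (abs_le_of_sq_le_sq' h2 (by positivity)).2
  have hP : ∀ z, ‖P z‖ ≤ ‖z‖ := by
    intro z
    have h2 : ‖P z‖ ^ 2 ≤ ‖z‖ ^ 2 := by
      rw [EuclideanSpace.norm_sq_eq]
      exact sum_sq_le_norm_sq m z
    exact (abs_le_of_sq_le_sq' h2 (by positivity)).2
  let f : EuclideanSpace 𝕜 (Fin m) →ₗ[𝕜] EuclideanSpace 𝕜 (Fin m) := P ∘ₗ T.toLinearMap ∘ₗ J
  have hsv : ∀ k < m, f.singularValues k ≤ hilbertNumber k S := by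
    intro k hk
    refine (singularValues_le_approxNumber T J P hJ hP f (fun v => rfl) k (by simpa using hk)).trans ?_
    exact approxNumber_comp_le_hilbert k S A B hA hB
  have hdet : f.normDet = ((m : ℝ)⁻¹) ^ m * ‖(Matrix.of fun i j => b i (S (x j))).det‖ := by
    rw [LinearMap.normDet_eq_norm_det_toMatrix f (EuclideanSpace.basisFun (Fin m) 𝕜)
      (EuclideanSpace.basisFun (Fin m) 𝕜)]
    have hM : LinearMap.toMatrix (EuclideanSpace.basisFun (Fin m) 𝕜).toBasis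
        (EuclideanSpace.basisFun (Fin m) 𝕜).toBasis f =
        (((m : ℝ)⁻¹ : ℝ) : 𝕜) • (Matrix.of fun i j => b i (S (x j))) := by
      ext i j
      have e1 : J (EuclideanSpace.single j (1 : 𝕜)) = lp.single 2 (j : ℕ) (1 : 𝕜) := by
        rw [hJapp, Finset.sum_eq_single j]
        · simp
        · intro i _ hij
          simp [hij]
        · intro h
          exact absurd (Finset.mem_univ j) h
      have e2 : A (lp.single 2 (j : ℕ) (1 : 𝕜)) = κ • x j := by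
        rw [hAapp, Finset.sum_eq_single j]
        · erw [single_coord_same, one_smul]
        · intro i _ hij
          have : (i : ℕ) ≠ (j : ℕ) := fun h => hij (Fin.ext h)
          erw [single_coord_ne _ _ _ this, zero_smul]
        · intro h
          exact absurd (Finset.mem_univ j) h
      have e3 : ∀ y : Y, (B y) (i : ℕ) = κ * b i y := by
        intro y
        rw [hBapp]
        simp only [lp.coeFn_smul, Pi.smul_apply, lp.coeFn_sum, Finset.sum_apply, smul_eq_mul]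
        rw [Finset.sum_eq_single i]
        · erw [single_coord_same]
        · intro k _ hik
          have : (i : ℕ) ≠ (k : ℕ) := fun h => hik (Fin.ext h).symm
          exact single_coord_ne _ _ _ this
        · intro h
          exact absurd (Finset.mem_univ i) h
      have e4 : f (EuclideanSpace.single j (1 : 𝕜)) i = κ * κ * b i (S (x j)) := by
        have : f (EuclideanSpace.single j (1 : 𝕜)) i =
            (B (S (A (J (EuclideanSpace.single j (1 : 𝕜)))))) (i : ℕ) := rfl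
        rw [this, e1, e2, e3, map_smul, map_smul, smul_eq_mul]
        ring
      have hκκ : κ * κ = (((m : ℝ)⁻¹ : ℝ) : 𝕜) := by
        rw [hκ, ← RCLike.ofReal_mul, ← mul_inv, Real.mul_self_sqrt hm'.le]
      rw [LinearMap.toMatrix_apply]
      simp only [OrthonormalBasis.coe_toBasis, EuclideanSpace.basisFun_apply,
        OrthonormalBasis.coe_toBasis_repr_apply, EuclideanSpace.basisFun_repr,
        Matrix.smul_apply, Matrix.of_apply, smul_eq_mul]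
      rw [e4, hκκ]
    rw [hM, Matrix.det_smul, norm_mul, norm_pow, RCLike.norm_ofReal, Fintype.card_fin,
      abs_of_nonneg (by positivity)]
  have hprod : f.normDet = ∏ k ∈ Finset.range m, f.singularValues k := by
    rw [LinearMap.normDet_eq_prod_singularValues]
    simp
  have h3 : ((m : ℝ)⁻¹) ^ m * ‖(Matrix.of fun i j => b i (S (x j))).det‖ ≤
      ∏ k ∈ Finset.range m, hilbertNumber k S := by
    rw [← hdet, hprod]
    exact Finset.prod_le_prod (fun k _ => f.singularValues_nonneg k)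
      (fun k hk => hsv k (Finset.mem_range.mp hk))
  rw [inv_pow, inv_mul_le_iff₀ (by positivity)] at h3
  exact h3

/-- Schur complement step: `a_m(S) |det_m| ≤ sup |det_{m+1}|`. -/
lemma approxNumber_mul_det_le (S : X →L[𝕜] Y) (m : ℕ) (D : ℝ)
    (hD : ∀ (x : Fin (m + 1) → X) (b : Fin (m + 1) → (Y →L[𝕜] 𝕜)), (∀ i, ‖x i‖ ≤ 1) →
      (∀ i, ‖b i‖ ≤ 1) → ‖(Matrix.of fun i j => b i (S (x j))).det‖ ≤ D)
    (x : Fin m → X) (b : Fin m → (Y →L[𝕜] 𝕜)) (hx : ∀ i, ‖x i‖ ≤ 1) (hb : ∀ i, ‖b i‖ ≤ 1) :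
    approxNumber m S * ‖(Matrix.of fun i j => b i (S (x j))).det‖ ≤ D := by
  have hD0 : 0 ≤ D := (norm_nonneg _).trans (hD 0 0 (by simp) (by simp))
  set M : Matrix (Fin m) (Fin m) 𝕜 := Matrix.of fun i j => b i (S (x j)) with hM
  by_cases hdet : M.det = 0
  · rw [hdet]; simpa using hD0
  have hdetpos : 0 < ‖M.det‖ := norm_pos_iff.mpr hdet
  rw [← le_div_iff₀ hdetpos]
  have hunit : IsUnit M.det := isUnit_iff_ne_zero.mpr hdet
  let _ : Invertible M := M.invertibleOfIsUnitDet hunit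
  let N : Matrix (Fin m) (Fin m) 𝕜 := ⅟M
  refine approxNumber_le_of m S (fun j => ∑ i, N j i • ((b i).comp S)) 0 (fun j => S (x j)) _
    fun z hz => ?_
  set v : Y := S z - 0 - ∑ j, (∑ i, N j i • ((b i).comp S)) z • S (x j) with hv
  obtain ⟨g, hg1, hg2⟩ := exists_dual_vector'' 𝕜 v
  let x' : Fin m ⊕ Fin 1 → X := Sum.elim x (fun _ => z)
  let b' : Fin m ⊕ Fin 1 → (Y →L[𝕜] 𝕜) := Sum.elim b (fun _ => g)
  let e : Fin m ⊕ Fin 1 ≃ Fin (m + 1) := finSumFinEquiv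
  have h1 := hD (x' ∘ e.symm) (b' ∘ e.symm)
    (by
      intro i
      rcases h : e.symm i with j | j
      · simp [x', h, hx]
      · simp [x', h, hz])
    (by
      intro i
      rcases h : e.symm i with j | j
      · simp [b', h, hb]
      · simp [b', h, hg1])
  have h2 : (Matrix.of fun i j => (b' ∘ e.symm) i (S ((x' ∘ e.symm) j))) =
      (Matrix.of fun i j => b' i (S (x' j))).submatrix e.symm e.symm := by
    ext i j; rfl
  rw [h2, Matrix.det_submatrix_equiv_self] at h1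
  have h3 : (Matrix.of fun i j => b' i (S (x' j))) =
      Matrix.fromBlocks M (Matrix.of fun i _ => b i (S z)) (Matrix.of fun _ j => g (S (x j)))
        (Matrix.of fun (_ _ : Fin 1) => g (S z)) := by
    ext i j
    rcases i with i | i <;> rcases j with j | j <;> simp [x', b', hM]
  have h4 : (Matrix.of fun (_ _ : Fin 1) => g (S z)) - (Matrix.of fun (_ : Fin 1) j => g (S (x j))) *
      ⅟M * (Matrix.of fun i (_ : Fin 1) => b i (S z)) = Matrix.of fun (_ _ : Fin 1) => g v := by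
    ext i j
    rw [hv]
    simp only [Matrix.sub_apply, Matrix.of_apply, Matrix.mul_apply, map_sub, map_sum, map_smul,
      sub_zero, smul_eq_mul]
    congr 1
    simp only [Finset.sum_mul]
    rw [Finset.sum_comm]
    refine Finset.sum_congr rfl fun k _ => ?_
    have hN : ∀ i j, N i j = M⁻¹ i j := by
      intro i j
      simp [N]
    simp only [Matrix.invOf_eq_nonsing_inv, ContinuousLinearMap.comp_apply, smul_eq_mul,
      smul_apply, sum_apply, hN]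
    rw [Finset.sum_mul]
    refine Finset.sum_congr rfl fun l _ => ?_
    ring
  rw [h3, Matrix.det_fromBlocks₁₁, h4, norm_mul] at h1
  simp only [Matrix.det_unique, Matrix.of_apply, hg2] at h1
  rw [le_div_iff₀ hdetpos, mul_comm]
  simpa using h1

/-- `∏_{k<m} a_k(S) ≤ sup |det_m|`. -/
lemma prod_approxNumber_le (S : X →L[𝕜] Y) (m : ℕ) : ∀ (D : ℝ),
    (∀ (x : Fin m → X) (b : Fin m → (Y →L[𝕜] 𝕜)), (∀ i, ‖x i‖ ≤ 1) →
      (∀ i, ‖b i‖ ≤ 1) → ‖(Matrix.of fun i j => b i (S (x j))).det‖ ≤ D) →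
    ∏ k ∈ Finset.range m, approxNumber k S ≤ D := by
  induction m with
  | zero =>
    intro D hD
    simpa using hD 0 0 (by simp) (by simp)
  | succ m ih =>
    intro D hD
    have hD0 : 0 ≤ D := (norm_nonneg _).trans (hD 0 0 (by simp) (by simp))
    rw [Finset.prod_range_succ]
    rcases (approxNumber_nonneg m S).eq_or_lt with h0 | h0
    · rw [← h0]; simpa using hD0
    rw [← le_div_iff₀ h0]
    refine ih _ fun x b hx hb => ?_
    rw [le_div_iff₀ h0, mul_comm]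
    exact approxNumber_mul_det_le S m D hD x b hx hb

end Det

/-- **Main theorem.** For every bounded operator `S : X → Y` between normed spaces over `ℝ` or `ℂ`
and every `n ≥ 0`, `a_n(S) ≤ (n+1) (∏_{k=0}^n h_k(S))^{1/(n+1)}`. -/
theorem result {𝕜 : Type*} [RCLike 𝕜]
    {X : Type*} [NormedAddCommGroup X] [NormedSpace 𝕜 X]
    {Y : Type*} [NormedAddCommGroup Y] [NormedSpace 𝕜 Y]
    (S : X →L[𝕜] Y) (n : ℕ) :
    approxNumber n S ≤ ((n : ℝ) + 1) * geomMeanHilbert n S := by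
  have h1 : ∏ k ∈ Finset.range (n + 1), approxNumber k S ≤
      ((n : ℝ) + 1) ^ (n + 1) * ∏ k ∈ Finset.range (n + 1), hilbertNumber k S := by
    refine prod_approxNumber_le S (n + 1) _ fun x b hx hb => ?_
    have := det_le_hilbert S (n + 1) x b hx hb
    push_cast at this
    exact this
  have h2 : approxNumber n S ^ (n + 1) ≤ ∏ k ∈ Finset.range (n + 1), approxNumber k S := by
    calc approxNumber n S ^ (n + 1) = ∏ _k ∈ Finset.range (n + 1), approxNumber n S := by simp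
      _ ≤ _ := Finset.prod_le_prod (fun _ _ => approxNumber_nonneg n S) fun k hk =>
        approxNumber_antitone S (by have := Finset.mem_range.mp hk; omega)
  have h3 : approxNumber n S ^ (n + 1) ≤ (((n : ℝ) + 1) * geomMeanHilbert n S) ^ (n + 1) := by
    refine (h2.trans h1).trans (le_of_eq ?_)
    rw [mul_pow, geomMeanHilbert]
    congr 1
    have hp : 0 ≤ ∏ k ∈ Finset.range (n + 1), hilbertNumber k S :=
      Finset.prod_nonneg fun k _ => hilbertNumber_nonneg k S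
    rw [← Real.rpow_natCast, ← Real.rpow_mul hp]
    push_cast
    rw [one_div, inv_mul_cancel₀ (by positivity), Real.rpow_one]
  have h4 : 0 ≤ ((n : ℝ) + 1) * geomMeanHilbert n S :=
    mul_nonneg (by positivity)
      (Real.rpow_nonneg (Finset.prod_nonneg fun k _ => hilbertNumber_nonneg k S) _)
  exact le_of_pow_le_pow_left₀ (Nat.succ_ne_zero n) h4 h3

end Pool.Agent.Results.MP_69de12_an.GeomMean
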